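import Pool.Agent.H8.P2.P2

/-!
# Rational self-maps of the projective line and the projective plane
-/

open MvPolynomial
open Pool.Agent.H12.ZD (pmap v O Res DenseOrbit NoInv)
open Pool.Agent.H18.HIT Pool.Agent.H8.HIT
open Pool.Agent.H55.HIT (hc_aeval hc_top_ne)

namespace Pool.Agent.H8.P2

section

variable {N : ℕ} {k : Type} [Field k]

/-- a homogeneous tuple without homogeneous relation is algebraically independent -/
theorem inj_of_hom {F : Tup N k} {d : ℕ} (hd : 1 ≤ d) (hF : ∀ i, (F i).IsHomogeneous d)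
    (hdom : ∀ (m : ℕ) (q : Po N k), q.IsHomogeneous m → aeval F q = 0 → q = 0) :
    Function.Injective (aeval F : Po N k →ₐ[k] Po N k) := by
  rw [injective_iff_map_eq_zero]
  intro q hq
  by_contra hq0
  have h1 := hc_aeval hd hF (p := q) (m := q.totalDegree) le_rfl
  rw [hq, map_zero] at h1
  exact hc_top_ne hq0 (hdom _ _ (homogeneousComponent_isHomogeneous _ q) h1.symm)

/-- the orbits under `F` and under `h F` -/
theorem orbit_mul {F F' : Tup N k} {d : ℕ} {h : Po N k} (hF : ∀ i, (F i).IsHomogeneous d)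
    (hF' : ∀ i, F' i = h * F i) {x : Fin N → k} (m : ℕ) :
    ∃ c : k, (pmap F')^[m] x = fun i => c * (pmap F)^[m] x i := by
  induction m with
  | zero => exact ⟨1, funext fun i => by rw [Function.iterate_zero, Function.iterate_zero, one_mul]⟩
  | succ m ih =>
    obtain ⟨c, hc⟩ := ih
    refine ⟨eval ((pmap F')^[m] x) h * c ^ d, ?_⟩
    rw [Function.iterate_succ_apply', Function.iterate_succ_apply']
    funext i
    have h1 := congrFun (pmap_smul_of_hom hF c ((pmap F)^[m] x)) i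
    rw [← hc] at h1
    calc pmap F' ((pmap F')^[m] x) i = eval ((pmap F')^[m] x) h * pmap F ((pmap F')^[m] x) i := by
          rw [pmap, hF' i, map_mul]
          rfl
      _ = eval ((pmap F')^[m] x) h * c ^ d * pmap F ((pmap F)^[m] x) i := by
          rw [h1, mul_assoc]

end

/-- **P2**: every dominant rational self-map of the projective line or plane without invariant
rational function has a dense orbit outside any given curve -/
theorem p2final {N : ℕ} (hN1 : 1 ≤ N) (hN : N ≤ 2) (F : Tup (N + 1) Qb) (b : Po (N + 1) Qb)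
    (d t : ℕ) (hd : 1 ≤ d) (hF : ∀ i, (F i).IsHomogeneous d)
    (hdom : ∀ (m : ℕ) (q : Po (N + 1) Qb), q.IsHomogeneous m → aeval F q = 0 → q = 0)
    (hinv : ∀ (m : ℕ) (P Q : Po (N + 1) Qb), P.IsHomogeneous m → Q.IsHomogeneous m → Q ≠ 0 →
      aeval F P * Q = aeval F Q * P → ∃ c : Qb, P = C c * Q)
    (hb : b.IsHomogeneous t) (hb0 : b ≠ 0) :
    ∃ x : Fin (N + 1) → Qb, (∀ m, eval ((pmap F)^[m] x) b ≠ 0) ∧
      (∀ m, (pmap F)^[m] x ≠ 0) ∧
      ∀ (s : ℕ) (q : Po (N + 1) Qb), q.IsHomogeneous s →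
        (∀ m, eval ((pmap F)^[m] x) q = 0) → q = 0 := by
  set F' : Tup (N + 1) Qb := fun i => X 0 * F i with hF'
  have hF'h : ∀ i, (F' i).IsHomogeneous (1 + d) := fun i => (isHomogeneous_X _ 0).mul (hF i)
  have hinj' : Function.Injective (aeval F' : Po (N + 1) Qb →ₐ[Qb] Po (N + 1) Qb) := by
    apply inj_of_hom (by omega) hF'h
    intro m q hq h0
    rw [hF', aeval_mul_of_hom hq] at h0
    rcases mul_eq_zero.mp h0 with h1 | h1
    · exact absurd h1 (pow_ne_zero _ (X_ne_zero 0))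
    · exact hdom m q hq h1
  have hNI : NoInv F' := by
    apply All.pni (N + 1) Qb F' (1 + d) (by omega) hF'h hinj'
    intro m P Q hP hQ hQ0 hPQ
    apply hinv m P Q hP hQ hQ0
    rw [hF', aeval_mul_of_hom hP, aeval_mul_of_hom hQ, mul_assoc, mul_assoc] at hPQ
    exact mul_left_cancel₀ (pow_ne_zero m (X_ne_zero 0)) hPQ
  obtain ⟨x, hxb, hx0, hdense⟩ := p2core hN1 hN F' (by omega : 2 ≤ 1 + d) hF'h hinj' hNI b hb0
  have hc : ∀ m, ∃ c : Qb, c ≠ 0 ∧ (pmap F')^[m] x = fun i => c * (pmap F)^[m] x i := by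
    intro m
    obtain ⟨c, hc⟩ := orbit_mul (h := X 0) (F' := F') hF (fun i => rfl) (x := x) m
    refine ⟨c, ?_, hc⟩
    rintro rfl
    apply hx0 m
    rw [hc]
    funext i
    rw [zero_mul]
    rfl
  refine ⟨x, fun m => ?_, fun m hm => ?_, fun s q hq hqx => ?_⟩
  · obtain ⟨c, hc0, hc⟩ := hc m
    have h1 := hxb m
    rw [hc, eval_smul_of_hom hb] at h1
    exact right_ne_zero_of_mul h1
  · obtain ⟨c, hc0, hc⟩ := hc m
    apply hx0 m
    rw [hc, hm]
    funext i
    exact mul_zero c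
  · apply hdense
    intro m
    obtain ⟨c, hc0, hc⟩ := hc m
    rw [hc, eval_smul_of_hom hq, hqx m, mul_zero]

end Pool.Agent.H8.P2
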