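import Pool.Agent.H8.P2.CONE

/-!
# A cone which contains many lines
-/

open MvPolynomial
open Pool.Agent.H12.ZD (pmap v O Res DenseOrbit NoInv)
open Pool.Agent.H18.HIT Pool.Agent.H8.HIT
open Pool.Agent.H20.HIT (hom_eval)
open Pool.Agent.H55.HIT (sum_hc)

namespace Pool.Agent.H8.P2

section

variable {N : ℕ} {k : Type} [Field k]

/-- two vectors are proportional -/
def Prop2 (u w : Fin N → k) : Prop := ∀ s t, u s * w t = u t * w s

/-- restriction to the lines through given points -/
noncomputable def res {J : ℕ} (w : Fin J → Fin N → k) : Po N k →ₗ[k] Fin J → Polynomial k :=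
  LinearMap.pi fun a =>
    (aeval (fun i => Polynomial.C (w a i) * Polynomial.X) : Po N k →ₐ[k] Polynomial k).toLinearMap

theorem res_hom {J : ℕ} (w : Fin J → Fin N → k) {q : Po N k} {m : ℕ} (hq : q.IsHomogeneous m)
    (a : Fin J) : res w q a = Polynomial.C (eval (w a) q) * Polynomial.X ^ m := by
  have h0 : res w q a = aeval (fun i => Polynomial.C (w a i) * Polynomial.X) q := rfl
  rw [h0, aeval_def, eval₂_eq', eval_eq', map_sum, Finset.sum_mul]
  apply Finset.sum_congr rfl
  intro d hd
  have h1 : d.degree = m := by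
    have h2 := hq (mem_support_iff.1 hd)
    exact (DFunLike.congr_fun (Finsupp.degree_eq_weight_one (R := ℕ)) d).trans h2
  have h2 : ∏ i, (Polynomial.C (w a i) * Polynomial.X : Polynomial k) ^ d i =
      Polynomial.C (∏ i, w a i ^ d i) * Polynomial.X ^ m := by
    simp only [mul_pow]
    rw [Finset.prod_mul_distrib, Finset.prod_pow_eq_pow_sum, ← h1, Finsupp.degree_eq_sum, map_prod]
    simp only [map_pow]
  rw [h2, Polynomial.C_mul, mul_assoc]
  rfl

theorem res_of_mem {J : ℕ} {w : Fin J → Fin N → k} {I : Ideal (Po N k)}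
    (hI : ∀ q ∈ I, ∀ m, homogeneousComponent m q ∈ I) (hw : ∀ a, ∀ q ∈ I, eval (w a) q = 0)
    {q : Po N k} (hq : q ∈ I) : res w q = 0 := by
  funext a
  rw [← sum_hc (p := q) (a := q.totalDegree) le_rfl, map_sum, Finset.sum_apply]
  apply Finset.sum_eq_zero
  intro m _
  rw [res_hom w (homogeneousComponent_isHomogeneous m q), hw a _ (hI q hq m), Polynomial.C_0,
    zero_mul]

/-- a homogeneous polynomial of degree `J` which vanishes at the other points -/
theorem exists_sep {J : ℕ} {w : Fin J → Fin N → k}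
    (hw : ∀ a b, a ≠ b → ¬ Prop2 (w a) (w b)) (hw0 : ∀ a, w a ≠ 0) (a : Fin J) :
    ∃ L : Po N k, L.IsHomogeneous J ∧ eval (w a) L ≠ 0 ∧ ∀ b, b ≠ a → eval (w b) L = 0 := by
  classical
  obtain ⟨s₀, hs₀⟩ : ∃ s, w a s ≠ 0 := by
    by_contra h
    push Not at h
    exact hw0 a (funext h)
  have h1 : ∀ b, ∃ ℓ : Po N k, ℓ.IsHomogeneous 1 ∧ eval (w a) ℓ ≠ 0 ∧
      (b ≠ a → eval (w b) ℓ = 0) := by
    intro b
    by_cases hb : b = a
    · exact ⟨X s₀, isHomogeneous_X _ _, by rwa [eval_X], fun h => absurd hb h⟩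
    · have h2 := hw a b (Ne.symm hb)
      unfold Prop2 at h2
      push Not at h2
      obtain ⟨s, t, hst⟩ := h2
      refine ⟨C (w b t) * X s - C (w b s) * X t, ?_, ?_, fun _ => ?_⟩
      · exact ((isHomogeneous_X k s).C_mul _).sub ((isHomogeneous_X k t).C_mul _)
      · rw [map_sub, map_mul, map_mul, eval_C, eval_C, eval_X, eval_X, sub_ne_zero]
        intro h3
        apply hst
        rw [mul_comm (w a s), h3, mul_comm]
      · rw [map_sub, map_mul, map_mul, eval_C, eval_C, eval_X, eval_X, mul_comm, sub_self]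
  choose ℓ hℓ1 hℓ2 hℓ3 using h1
  refine ⟨∏ b : Fin J, ℓ b, ?_, ?_, ?_⟩
  · have h2 := IsHomogeneous.prod Finset.univ ℓ (fun _ => 1) (fun b _ => hℓ1 b)
    simp only [Finset.sum_const, Finset.card_univ, Fintype.card_fin, smul_eq_mul, mul_one] at h2
    exact h2
  · rw [map_prod, Finset.prod_ne_zero_iff]
    exact fun b _ => hℓ2 b
  · intro b hb
    rw [map_prod]
    exact Finset.prod_eq_zero (Finset.mem_univ b) (hℓ3 b hb)

/-- lower bound for the Hilbert function of a cone which contains `J` lines -/
theorem lowb {J : ℕ} {w : Fin J → Fin N → k} {I : Ideal (Po N k)}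
    (hI : ∀ q ∈ I, ∀ m, homogeneousComponent m q ∈ I) (hw : ∀ a, ∀ q ∈ I, eval (w a) q = 0)
    (hww : ∀ a b, a ≠ b → ¬ Prop2 (w a) (w b)) (hw0 : ∀ a, w a ≠ 0) (s : ℕ) :
    J * s ≤ Hf I (J + s) := by
  classical
  choose L hL1 hL2 hL3 using exists_sep hww hw0
  have h0 : ∀ a, ∃ s, w a s ≠ 0 := by
    intro a
    by_contra h
    push Not at h
    exact hw0 a (funext h)
  choose σ hσ using h0
  set E : Fin J × Fin s → Po N k := fun x => L x.1 * X (σ x.1) ^ (x.2 : ℕ) with hE
  have hEh : ∀ x, (E x).IsHomogeneous (J + (x.2 : ℕ)) := by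
    intro x
    exact (hL1 x.1).mul (isHomogeneous_X_pow _ _)
  -- the factorization of the restriction map through the quotient
  set Ψ : (Po N k ⧸ I) →ₗ[k] Fin J → Polynomial k :=
    (I.restrictScalars k).liftQ (res w) (by
      intro q hq
      exact res_of_mem hI hw hq) with hΨ
  have hΨm : ∀ q : Po N k, Ψ (Ideal.Quotient.mkₐ k I q) = res w q := fun q => rfl
  have hlin : LinearIndependent k fun x : Fin J × Fin s => Ideal.Quotient.mkₐ k I (E x) := by
    apply LinearIndependent.of_comp Ψ
    have h1 : (Ψ ∘ fun x : Fin J × Fin s => Ideal.Quotient.mkₐ k I (E x)) =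
        fun x => Pi.single x.1 (Polynomial.C (eval (w x.1) (E x)) *
          Polynomial.X ^ (J + (x.2 : ℕ))) := by
      funext x
      rw [Function.comp_apply, hΨm]
      funext b
      rw [res_hom w (hEh x)]
      by_cases hb : b = x.1
      · rw [hb, Pi.single_eq_same]
      · rw [Pi.single_eq_of_ne hb]
        have h2 : eval (w b) (E x) = 0 := by
          rw [hE]
          simp only
          rw [map_mul, hL3 x.1 b hb, zero_mul]
        rw [h2, Polynomial.C_0, zero_mul]
    rw [h1, Fintype.linearIndependent_iff]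
    intro g hg x
    have h2 := congrFun hg x.1
    rw [Finset.sum_apply] at h2
    have h3 := congrArg (fun r : Polynomial k => r.coeff (J + (x.2 : ℕ))) h2
    simp only [Polynomial.finsetSum_coeff] at h3
    rw [Finset.sum_eq_single x] at h3
    · rw [Pi.smul_apply, Pi.single_eq_same, Polynomial.coeff_smul, Polynomial.coeff_C_mul,
        Polynomial.coeff_X_pow_self, mul_one, Pi.zero_apply, Polynomial.coeff_zero, smul_eq_mul] at h3
      rcases mul_eq_zero.mp h3 with h4 | h4
      · exact h4
      · exfalso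
        rw [hE] at h4
        simp only at h4
        rw [map_mul, map_pow, eval_X] at h4
        exact mul_ne_zero (hL2 x.1) (pow_ne_zero _ (hσ x.1)) h4
    · intro y _ hy
      rw [Pi.smul_apply, Polynomial.coeff_smul]
      by_cases hb : x.1 = y.1
      · rw [hb, Pi.single_eq_same, Polynomial.coeff_C_mul, Polynomial.coeff_X_pow, if_neg, mul_zero,
          smul_zero]
        intro h4
        apply hy
        apply Prod.ext hb.symm
        apply Fin.ext
        omega
      · rw [Pi.single_eq_of_ne hb, Polynomial.coeff_zero, smul_zero]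
    · intro hx
      exact absurd (Finset.mem_univ _) hx
  have hfin : Module.Finite k (restrictTotalDegree (Fin N) k (J + s)) := (All.rtd N k (J + s)).1
  have hmemV : ∀ x, Ideal.Quotient.mkₐ k I (E x) ∈ Submodule.map (Ideal.Quotient.mkₐ k I).toLinearMap
      (restrictTotalDegree (Fin N) k (J + s)) := by
    intro x
    refine ⟨E x, ?_, rfl⟩
    rw [SetLike.mem_coe, mem_restrictTotalDegree]
    exact (hEh x).totalDegree_le.trans (by omega)
  set V := Submodule.map (Ideal.Quotient.mkₐ k I).toLinearMap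
      (restrictTotalDegree (Fin N) k (J + s)) with hV
  have hlin' : LinearIndependent k (fun x : Fin J × Fin s => (⟨_, hmemV x⟩ : V)) := by
    apply LinearIndependent.of_comp V.subtype
    exact hlin
  have hc := hlin'.fintype_card_le_finrank
  rw [Fintype.card_prod, Fintype.card_fin, Fintype.card_fin] at hc
  exact hc

/-- if the Hilbert function of the cone grows at most linearly, two points of the orbit are
proportional -/
theorem two_prop {T : Tup N k} {y : Fin N → k} {B : ℕ}
    (hI : ∀ q ∈ van T y, ∀ m, homogeneousComponent m q ∈ van T y)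
    (hB : ∀ t, Hf (van T y) t ≤ B * (t + 1)) (h0 : ∀ n, (pmap T)^[n] y ≠ 0) :
    ∃ n m : ℕ, n < m ∧ Prop2 ((pmap T)^[n] y) ((pmap T)^[m] y) := by
  by_contra hcon
  push Not at hcon
  have h1 := lowb (J := B + 1) (w := fun a => (pmap T)^[(a : ℕ)] y) hI (fun a q hq => hq a)
    (by
      intro a b hab hp
      rcases Nat.lt_or_gt_of_ne (fun h => hab (Fin.ext h)) with h | h
      · exact hcon _ _ h hp
      · apply hcon _ _ h
        intro s t
        rw [mul_comm, mul_comm ((pmap T)^[(b : ℕ)] y t)]
        exact (hp t s)) (fun a => h0 a) (B * (B + 2) + 1)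
  have h2 := hB (B + 1 + (B * (B + 2) + 1))
  have h3 := h1.trans h2
  nlinarith

end

end Pool.Agent.H8.P2
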