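import Pool.Agent.H8.P2.TOT

/-!
# The orbit closure of a homogeneous map is a cone
-/

open MvPolynomial
open Pool.Agent.H12.ZD (pmap v O Res DenseOrbit NoInv)
open Pool.Agent.H18.HIT Pool.Agent.H8.HIT
open Pool.Agent.H20.HIT (hom_eval)
open Pool.Agent.H55.HIT (sum_hc)

namespace Pool.Agent.H8.P2

section

variable {N : ℕ} {k : Type} [Field k]

/-- the substitution `x ↦ ζ x` -/
noncomputable def sc (ζ : k) : Po N k →ₐ[k] Po N k := aeval fun i => C ζ * X i

theorem eval_sc (ζ : k) (q : Po N k) (w : Fin N → k) :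
    eval w (sc ζ q) = eval (fun i => ζ * w i) q := by
  rw [sc, eval_aeval]
  congr 2
  funext i
  simp [pmap]

theorem sc_one (q : Po N k) : sc 1 q = q := by
  rw [sc]
  simp only [C_1, one_mul]
  exact aeval_X_left_apply q

theorem sc_sc (ζ ξ : k) (h : ζ * ξ = 1) (q : Po N k) : sc ζ (sc ξ q) = q := by
  have h1 : (sc ζ : Po N k →ₐ[k] Po N k).comp (sc ξ) = AlgHom.id k (Po N k) := by
    apply algHom_ext
    intro i
    rw [AlgHom.comp_apply, sc, sc, aeval_X, map_mul, aeval_X, aeval_C, algebraMap_eq, ← mul_assoc,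
      ← C_mul, mul_comm ξ ζ, h, C_1, one_mul]
    rfl
  exact DFunLike.congr_fun h1 q

theorem sc_hom {q : Po N k} {m : ℕ} (hq : q.IsHomogeneous m) (ζ : k) :
    sc ζ q = C (ζ ^ m) * q := by
  rw [sc, aeval_def, eval₂_eq', Finset.sum_congr rfl (g := fun d =>
    C (ζ ^ m) * (monomial d (coeff d q)))]
  · rw [← Finset.mul_sum]
    congr 1
    exact support_sum_monomial_coeff q
  · intro d hd
    have h1 : d.degree = m := by
      have h2 := hq (mem_support_iff.1 hd)
      exact (DFunLike.congr_fun (Finsupp.degree_eq_weight_one (R := ℕ)) d).trans h2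
    have h2 : ∏ i, (C ζ * X i : Po N k) ^ d i = C (ζ ^ m) * ∏ i, X i ^ d i := by
      simp only [mul_pow]
      rw [Finset.prod_mul_distrib, Finset.prod_pow_eq_pow_sum, ← h1, Finsupp.degree_eq_sum, C_pow]
    rw [h2, monomial_eq, algebraMap_eq, Finsupp.prod_fintype _ _ (fun i => pow_zero _)]
    ring

/-- scaling by roots of unity preserves the ideal of the orbit -/
theorem scale {T : Tup N k} {y : Fin N → k} {D : ℕ} (hT : ∀ i, (T i).IsHomogeneous D)
    (hprime : (van T y).IsPrime) (hstar : ∀ q, aeval T q ∈ van T y → q ∈ van T y) {Δ : Po N k}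
    (hΔ : Δ ∉ van T y)
    (htot : ∀ w : Fin N → k, (∀ q ∈ van T y, eval (pmap T w) q = 0) → eval (pmap T w) Δ ≠ 0 →
      ∀ q ∈ van T y, eval w q = 0) (n : ℕ) :
    ∀ ζ : k, ζ ^ (D ^ n) = 1 → ∀ q ∈ van T y, sc ζ q ∈ van T y := by
  induction n with
  | zero =>
    intro ζ hζ q hq
    rw [pow_zero, pow_one] at hζ
    rwa [hζ, sc_one]
  | succ n ih =>
    intro ζ hζ q hq
    have hζ' : (ζ ^ D) ^ (D ^ n) = 1 := by
      rw [← pow_mul, ← pow_succ', hζ]
    have hζ'' : ((ζ ^ D)⁻¹) ^ (D ^ n) = 1 := by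
      rw [inv_pow, hζ', inv_one]
    have hne : ζ ^ D ≠ 0 := by
      intro h0
      rw [h0] at hζ'
      rcases Nat.eq_zero_or_pos (D ^ n) with h1 | h1
      · have h2 : D = 0 := by
          by_contra h2
          exact (pow_ne_zero n h2) h1
        rw [h2, pow_zero] at h0
        exact one_ne_zero h0
      · rw [zero_pow (by omega)] at hζ'
        exact zero_ne_one hζ'
    have hmem : sc ζ q * aeval T (sc (ζ ^ D) Δ) ∈ van T y := by
      intro m
      rw [map_mul, eval_aeval, eval_sc, eval_sc]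
      set w := (pmap T)^[m] y with hw
      by_cases hz : eval (fun i => ζ ^ D * pmap T w i) Δ = 0
      · rw [hz, mul_zero]
      · have h1 : pmap T (fun i => ζ * w i) = fun i => ζ ^ D * pmap T w i := by
          funext i
          exact hom_eval (hT i) ζ w
        have h2 := htot (fun i => ζ * w i) (by
          intro q' hq'
          rw [h1, ← eval_sc, hw, ← Function.iterate_succ_apply' (pmap T)]
          exact ih _ hζ' q' hq' (m + 1)) (by rwa [h1]) q hq
        rw [h2, zero_mul]
    rcases hprime.mem_or_mem hmem with h1 | h1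
    · exact h1
    · exfalso
      apply hΔ
      have h2 := ih _ hζ'' _ (hstar _ h1)
      rwa [sc_sc _ _ (inv_mul_cancel₀ hne)] at h2

/-- a subspace which contains the sums `∑ v_i ^ j q_j` for distinct `v_i` contains the `q_j` -/
theorem vdm_mem {M : Type} [AddCommGroup M] [Module k M] (V : Submodule k M) {n : ℕ}
    (w : Fin n → k) (hw : Function.Injective w) (q : Fin n → M)
    (h : ∀ i, ∑ j : Fin n, w i ^ (j : ℕ) • q j ∈ V) (j : Fin n) : q j ∈ V := by
  have hdet : IsUnit (Matrix.vandermonde w).det :=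
    isUnit_iff_ne_zero.mpr (Matrix.det_vandermonde_ne_zero_iff.mpr hw)
  have h1 : ∑ i : Fin n, (Matrix.vandermonde w)⁻¹ j i • ∑ l : Fin n, w i ^ (l : ℕ) • q l =
      q j := by
    have h2 : ∀ i : Fin n, (Matrix.vandermonde w)⁻¹ j i • ∑ l : Fin n, w i ^ (l : ℕ) • q l =
        ∑ l : Fin n, ((Matrix.vandermonde w)⁻¹ j i * Matrix.vandermonde w i l) • q l := by
      intro i
      rw [Finset.smul_sum]
      apply Finset.sum_congr rfl
      intro l _
      rw [smul_smul, Matrix.vandermonde_apply]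
    rw [Finset.sum_congr rfl fun i _ => h2 i, Finset.sum_comm]
    have h3 : ∀ l : Fin n,
        ∑ i : Fin n, ((Matrix.vandermonde w)⁻¹ j i * Matrix.vandermonde w i l) • q l =
          (if j = l then (1 : k) else 0) • q l := by
      intro l
      rw [← Finset.sum_smul, ← Matrix.mul_apply, Matrix.nonsing_inv_mul _ hdet, Matrix.one_apply]
    rw [Finset.sum_congr rfl fun l _ => h3 l]
    simp only [ite_smul, one_smul, zero_smul, Finset.sum_ite_eq, Finset.mem_univ, if_true]
  rw [← h1]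
  exact Submodule.sum_mem _ fun i _ => V.smul_mem _ (h i)

/-- the ideal of the orbit is homogeneous -/
theorem cone [IsAlgClosed k] [CharZero k] {T : Tup N k} {y : Fin N → k} {D : ℕ} (hD : 2 ≤ D)
    (hT : ∀ i, (T i).IsHomogeneous D)
    (hprime : (van T y).IsPrime) (hstar : ∀ q, aeval T q ∈ van T y → q ∈ van T y) {Δ : Po N k}
    (hΔ : Δ ∉ van T y)
    (htot : ∀ w : Fin N → k, (∀ q ∈ van T y, eval (pmap T w) q = 0) → eval (pmap T w) Δ ≠ 0 →
      ∀ q ∈ van T y, eval w q = 0) {q : Po N k} (hq : q ∈ van T y) (m : ℕ) :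
    homogeneousComponent m q ∈ van T y := by
  rcases Nat.lt_or_ge q.totalDegree m with hm | hm
  · rw [homogeneousComponent_eq_zero _ _ hm]
    exact Ideal.zero_mem _
  set e := q.totalDegree with he
  have hlt : e < D ^ e := Nat.lt_pow_self (by omega)
  have hk : NeZero ((D ^ e : ℕ) : k) := ⟨by
    exact_mod_cast (pow_ne_zero e (by omega : D ≠ 0))⟩
  obtain ⟨ζ, hζ⟩ := HasEnoughRootsOfUnity.exists_primitiveRoot k (D ^ e)
  have hmem : ∀ i : Fin (e + 1), ∑ j : Fin (e + 1),
      (ζ ^ (i : ℕ)) ^ (j : ℕ) • homogeneousComponent (j : ℕ) q ∈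
        (van T y).restrictScalars k := by
    intro i
    have h1 : (ζ ^ (i : ℕ)) ^ (D ^ e) = 1 := by
      rw [← pow_mul, mul_comm, pow_mul, hζ.pow_eq_one, one_pow]
    have h2 := scale hT hprime hstar hΔ htot e (ζ ^ (i : ℕ)) h1 q hq
    have h3 : sc (ζ ^ (i : ℕ)) q = ∑ j : Fin (e + 1),
      (ζ ^ (i : ℕ)) ^ (j : ℕ) • homogeneousComponent (j : ℕ) q := by
      conv_lhs => rw [← sum_hc (p := q) (a := e) le_rfl, map_sum, Finset.sum_range]
      apply Finset.sum_congr rfl
      intro j _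
      rw [sc_hom (homogeneousComponent_isHomogeneous (j : ℕ) q), C_mul']
    rw [← h3]
    exact h2
  have hinj : Function.Injective fun i : Fin (e + 1) => ζ ^ (i : ℕ) := by
    intro i j hij
    apply Fin.ext
    exact hζ.pow_inj (by omega) (by omega) hij
  exact vdm_mem ((van T y).restrictScalars k) _ hinj
    (fun j : Fin (e + 1) => homogeneousComponent (j : ℕ) q) hmem ⟨m, by omega⟩

end

end Pool.Agent.H8.P2
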