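import Pool.Agent.H18.HIT.All

/-!
# Total invariance of the orbit closure, point version
-/

open MvPolynomial
open Pool.Agent.H12.ZD (pmap v O Res DenseOrbit NoInv)
open Pool.Agent.H18.HIT Pool.Agent.H8.HIT

namespace Pool.Agent.H8.P2

section ring

variable {N : ℕ} {k : Type} [Field k] {G : Tup N k} {θ : Po N k} {Φ : Polynomial (Po N k)}
  {Δ : Po N k} {R : Fin N → Polynomial (Po N k)}

theorem bas0 (h : Prim G θ Φ Δ R) (q : Po N k) : ∃ (M : ℕ) (Ψ : Polynomial (Po N k)),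
    aeval G Δ ^ M * q = ev2 G θ Ψ := by
  induction q using MvPolynomial.induction_on with
  | C a =>
    refine ⟨0, Polynomial.C (C a), ?_⟩
    rw [pow_zero, one_mul, ev2_C, aeval_C, algebraMap_eq]
  | add q₁ q₂ h₁ h₂ =>
    obtain ⟨M₁, Ψ₁, h₁⟩ := h₁
    obtain ⟨M₂, Ψ₂, h₂⟩ := h₂
    refine ⟨M₁ + M₂, Polynomial.C (Δ ^ M₂) * Ψ₁ + Polynomial.C (Δ ^ M₁) * Ψ₂, ?_⟩
    rw [ev2_add, ev2_mul, ev2_mul, ev2_C, ev2_C, ← h₁, ← h₂, map_pow, map_pow]
    ring
  | mul_X q i hq =>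
    obtain ⟨M, Ψ, hq⟩ := hq
    refine ⟨M + 1, Ψ * R i, ?_⟩
    rw [ev2_mul, ← hq, ← h.coord i]
    ring

/-- every polynomial is a combination of the powers of `θ` over `k[G]`, up to a denominator -/
theorem bas (h : Prim G θ Φ Δ R) (q : Po N k) : ∃ (M : ℕ) (c : Fin Φ.natDegree → Po N k),
    aeval G Δ ^ M * q = ∑ i : Fin Φ.natDegree, θ ^ (i : ℕ) * aeval G (c i) := by
  obtain ⟨M, Ψ, hΨ⟩ := bas0 h q
  refine ⟨M, fun i => (Ψ %ₘ Φ).coeff i, ?_⟩
  have h1 : ev2 G θ Ψ = ev2 G θ (Ψ %ₘ Φ) := by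
    conv_lhs => rw [← Polynomial.modByMonic_add_div Ψ Φ]
    rw [ev2_add, ev2_mul, h.root, zero_mul, add_zero]
  have h0 : Φ.natDegree ≠ 0 := by
    intro h0
    apply h.irr.not_isUnit
    rw [h.monic.natDegree_eq_zero.mp h0]
    exact isUnit_one
  have h2 : (Ψ %ₘ Φ).natDegree < Φ.natDegree := by
    apply Polynomial.natDegree_modByMonic_lt _ h.monic
    intro h1
    apply h0
    rw [h1, Polynomial.natDegree_one]
  rw [hΨ, h1, ev2, Polynomial.eval₂_eq_sum_range' _ h2, Finset.sum_range]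
  apply Finset.sum_congr rfl
  intro i _
  rw [mul_comm]
  rfl

/-- the preimages of a point are determined by the values of `θ` -/
theorem thd (h : Prim G θ Φ Δ R) {z P P' : Fin N → k} (hz : eval z Δ ≠ 0) (hP : pmap G P = z)
    (hP' : pmap G P' = z) (hθ : eval P θ = eval P' θ) : P = P' := by
  funext i
  have h1 := congrArg (eval P) (h.coord i)
  have h2 := congrArg (eval P') (h.coord i)
  rw [map_mul, eval_aeval, hP, eval_X, eval_ev2, hP] at h1
  rw [map_mul, eval_aeval, hP', eval_X, eval_ev2, hP', ← hθ, ← h1] at h2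
  exact (mul_left_cancel₀ hz h2).symm

theorem natDegree_pos (h : Prim G θ Φ Δ R) : 0 < Φ.natDegree := by
  rw [Nat.pos_iff_ne_zero]
  intro h0
  apply h.irr.not_isUnit
  rw [h.monic.natDegree_eq_zero.mp h0]
  exact isUnit_one

/-- total invariance for points -/
theorem tot (h : Prim G θ Φ Δ R) {I : Ideal (Po N k)}
    (hI : ∀ g : Fin Φ.natDegree → Po N k,
      (∑ i : Fin Φ.natDegree, θ ^ (i : ℕ) * aeval G (g i)) ∈ I → ∀ i, g i ∈ I)
    {w : Fin N → k} (hw : ∀ q ∈ I, eval (pmap G w) q = 0) (hΔ : eval (pmap G w) Δ ≠ 0) {q : Po N k}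
    (hq : q ∈ I) : eval w q = 0 := by
  obtain ⟨M, c, hc⟩ := bas h q
  have h1 : ∀ i, c i ∈ I := by
    apply hI
    rw [← hc]
    exact Ideal.mul_mem_left _ _ hq
  have h2 := congrArg (eval w) hc
  rw [map_mul, map_pow, eval_aeval, map_sum] at h2
  have h3 : ∑ i : Fin Φ.natDegree, eval w (θ ^ (i : ℕ) * aeval G (c i)) = 0 := by
    apply Finset.sum_eq_zero
    intro i _
    rw [map_mul, eval_aeval, hw _ (h1 i), mul_zero]
  rw [h3] at h2
  rcases mul_eq_zero.mp h2 with h4 | h4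
  · exact absurd h4 (pow_ne_zero M hΔ)
  · exact h4

/-- the ideal is stable under division by `G` -/
theorem star (h : Prim G θ Φ Δ R) {I : Ideal (Po N k)}
    (hI : ∀ g : Fin Φ.natDegree → Po N k,
      (∑ i : Fin Φ.natDegree, θ ^ (i : ℕ) * aeval G (g i)) ∈ I → ∀ i, g i ∈ I)
    {q : Po N k} (hq : aeval G q ∈ I) : q ∈ I := by
  classical
  have h1 := hI (fun i => if i = ⟨0, natDegree_pos h⟩ then q else 0) (by
    rw [Finset.sum_eq_single ⟨0, natDegree_pos h⟩]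
    · rw [if_pos rfl]
      exact Ideal.mul_mem_left _ _ hq
    · intro i _ hi
      rw [if_neg hi, map_zero, mul_zero]
    · intro hi
      exact absurd (Finset.mem_univ _) hi) ⟨0, natDegree_pos h⟩
  rwa [if_pos rfl] at h1

end ring

/-- the core of the construction, with the total invariance for all the elements of the fibre -/
theorem core0 {N : ℕ} (p : Nat.Primes) (hp : 3 ≤ (p : ℕ)) (H : Tup N (O p)) (c : Po N Qb)
    (hc : c ≠ 0) (hinj : Function.Injective (aeval (flQ p H) : Po N Qb →ₐ[Qb] Po N Qb)) :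
    ∃ (z P : Fin N → O p) (θ : Po N Qb) (Φ : Polynomial (Po N Qb)) (Δ : Po N Qb)
      (R : Fin N → Polynomial (Po N Qb)), Prim (flQ p H) θ Φ Δ R ∧
      eval (cO z) c ≠ 0 ∧ eval (cO z) Δ ≠ 0 ∧ pmap (fl p H) P = z ∧
      (∀ q ∈ van (flQ p H) (cO z), eval (cO P) q = 0) ∧
      (∀ P' : Fin N → Qb, pmap (flQ p H) P' = cO z → ∃ σ : Qb ≃+* Qb,
        (∀ i, map (σ : Qb →+* Qb) (flQ p H i) = flQ p H i) ∧ (∀ i, σ (cO z i) = cO z i) ∧
        ∀ i, σ (cO P i) = P' i) ∧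
      (∀ g : Fin Φ.natDegree → Po N Qb,
        (∑ i : Fin Φ.natDegree, θ ^ (i : ℕ) * aeval (flQ p H) (g i)) ∈ van (flQ p H) (cO z) →
        ∀ i, g i ∈ van (flQ p H) (cO z)) := by
  obtain ⟨θ, Φ, Δ, R, hprim⟩ := All.pel N Qb (flQ p H) hinj
  obtain ⟨cG, hcG0, hcG⟩ := All.cve N Qb (flQ p H) θ Φ Δ R hinj hprim
  obtain ⟨z₀, hz₀, hgal⟩ := All.hit N (flQ p H) (c * (Δ * cG)) hinj
    (mul_ne_zero hc (mul_ne_zero hprim.ne hcG0))
  set z : Fin N → O p := fun i => ((z₀ i : ℤ) : O p) with hz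
  have hzc : cO z = cZ z₀ := cO_intCast p z₀
  rw [map_mul, map_mul, ← hzc] at hz₀
  have hzΔ : eval (cO z) Δ ≠ 0 := left_ne_zero_of_mul (right_ne_zero_of_mul hz₀)
  obtain ⟨P, hP, hPvan⟩ := All.pre N p H z θ Φ Δ R hp hprim hzΔ
  obtain ⟨S, hS, hS'⟩ := hcG (cO z) (right_ne_zero_of_mul (right_ne_zero_of_mul hz₀))
  have hPG : pmap (flQ p H) (cO P) = cO z := by
    rw [← hP]
    exact pmap_cO (fl p H) P
  have hgal' : ∀ P' : Fin N → Qb, pmap (flQ p H) P' = cO z → ∃ σ : Qb ≃+* Qb,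
        (∀ i, map (σ : Qb →+* Qb) (flQ p H i) = flQ p H i) ∧ (∀ i, σ (cO z i) = cO z i) ∧
        ∀ i, σ (cO P i) = P' i := by
    intro P' hP'
    obtain ⟨σ, hσ1, hσ2⟩ := hgal (cO P) P' (by rw [← hzc]; exact hPG) (by rw [← hzc]; exact hP')
    refine ⟨σ, hσ1, fun i => ?_, hσ2⟩
    rw [hzc]
    exact map_intCast σ (z₀ i)
  have hjn : ∀ n, eval ((pmap (flQ p H))^[n] (cO z)) (jac (flQ p H)) ≠ 0 := by
    intro n
    rw [flQ_iterate]
    exact jac_fl_ne p H _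
  have hIJ := All.ijp N Qb (flQ p H) (cO z) (cO P) hPG hjn (jac_fl_ne p H P) hPvan
  set en := Finset.equivFinOfCardEq hS with hen
  have hG : ∀ a : Fin Φ.natDegree, (∀ (l : ℕ) (c : Po N Qb),
      aeval (flQ p H) c ∈ van (flQ p H) (cO z) ⊔ mx ((en.symm a : Fin N → Qb)) ^ l →
        c ∈ van (flQ p H) (cO z) ⊔ mx (cO z) ^ l) ∧
      eval ((en.symm a : Fin N → Qb)) (jac (flQ p H)) ≠ 0 ∧
      pmap (flQ p H) ((en.symm a : Fin N → Qb)) = cO z := by
    intro a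
    obtain ⟨σ, h1, h2, h3⟩ := hgal' (en.symm a : Fin N → Qb) (hS' _ (en.symm a).2)
    obtain ⟨g1, g2, g3, g4⟩ := All.glt N Qb (flQ p H) (cO z) (cO P)
      (en.symm a : Fin N → Qb) σ h1 h2 h3 hIJ
    refine ⟨g1, ?_, g4 hPG⟩
    intro h0
    rw [← g3] at h0
    exact jac_fl_ne p H P ((map_eq_zero σ).1 h0)
  refine ⟨z, P, θ, Φ, Δ, R, hprim, left_ne_zero_of_mul hz₀, hzΔ, hP, hPvan, hgal', ?_⟩
  intro g hg i
  have hall := Pool.Agent.H94.HIT.pf_VDM N Qb (flQ p H) (cO z) Φ.natDegree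
    (fun a => (en.symm a : Fin N → Qb)) θ
    (fun a => (hG a).2.2) (fun a b hab => by
      have h1 := thd hprim hzΔ (hG a).2.2 (hG b).2.2 hab
      exact en.symm.injective (Subtype.ext h1))
    (fun a l q => All.etl N Qb (flQ p H) _ (hG a).2.1 l q) (fun a => (hG a).1) g hg i
  obtain ⟨m, hm, hmc⟩ := Pool.Agent.H94.HIT.pf_KRU N Qb (van (flQ p H) (cO z)) (cO z) (g i) hall
  refine All.inc N p H z (1 - m) (g i) hp hmc ?_
  rw [map_sub, map_one, mem_mx.1 hm, sub_zero]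
  exact one_ne_zero

end Pool.Agent.H8.P2
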