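import Pool.Agent.H8.P2.LOWB

/-!
# Transport by the parametrization of the small disc, proportional points
-/

open MvPolynomial
open Pool.Agent.H12.ZD (pmap v O Res DenseOrbit NoInv)
open Pool.Agent.H18.HIT Pool.Agent.H8.HIT
open Pool.Agent.H20.HIT (hom_eval)

namespace Pool.Agent.H8.P2

section aff

variable {N : ℕ} (p : Nat.Primes) (a : Fin N → O p)

/-- the parametrization of the disc as a tuple of polynomials -/
noncomputable def Lp : Tup N Qb := fun i => C (a i : Qb) + C (((p : ℕ) : Qb) ^ 2) * X i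

/-- its inverse -/
noncomputable def Lm : Tup N Qb := fun i => C (((p : ℕ) : Qb) ^ 2)⁻¹ * (X i - C (a i : Qb))

theorem pmap_Lp (z : Fin N → Qb) : pmap (Lp p a) z = lam p a z := by
  funext i
  simp [pmap, Lp, lam]

theorem pp_ne : ((p : ℕ) : Qb) ^ 2 ≠ 0 := pow_ne_zero 2 (Nat.cast_ne_zero.mpr p.2.ne_zero)

theorem comp_Lm_Lp : comp (Lm p a) (Lp p a) = fun i => X i := by
  funext i
  change aeval (Lp p a) (Lm p a i) = X i
  rw [Lm, map_mul, map_sub, aeval_X, aeval_C, aeval_C, algebraMap_eq, Lp,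
    add_sub_cancel_left, ← mul_assoc, ← C_mul, inv_mul_cancel₀ (pp_ne p), C_1, one_mul]

theorem comp_Lp_Lm : comp (Lp p a) (Lm p a) = fun i => X i := by
  funext i
  change aeval (Lm p a) (Lp p a i) = X i
  rw [Lp, map_add, map_mul, aeval_X, aeval_C, aeval_C, algebraMap_eq, Lm, ← mul_assoc,
    ← C_mul, mul_inv_cancel₀ (pp_ne p), C_1, one_mul]
  ring

theorem Lp_Lm (q : Po N Qb) : aeval (Lp p a) (aeval (Lm p a) q) = q := by
  rw [← aeval_comp, comp_Lm_Lp]
  exact aeval_X_left_apply q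

theorem Lm_Lp (q : Po N Qb) : aeval (Lm p a) (aeval (Lp p a) q) = q := by
  rw [← aeval_comp, comp_Lp_Lm]
  exact aeval_X_left_apply q

theorem Lp_ne {q : Po N Qb} (hq : q ≠ 0) : aeval (Lp p a) q ≠ 0 := by
  intro h
  apply hq
  rw [← Lm_Lp p a q, h, map_zero]

theorem Lm_ne {q : Po N Qb} (hq : q ≠ 0) : aeval (Lm p a) q ≠ 0 := by
  intro h
  apply hq
  rw [← Lp_Lm p a q, h, map_zero]

theorem lam_Lm (w : Fin N → Qb) : lam p a (pmap (Lm p a) w) = w := by
  rw [← pmap_Lp, ← pmap_comp, comp_Lp_Lm, pmap_X]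

theorem Lm_lam (w : Fin N → Qb) : pmap (Lm p a) (lam p a w) = w := by
  rw [← pmap_Lp, ← pmap_comp, comp_Lm_Lp, pmap_X]

variable {p a} {T G : Tup N Qb}

theorem iter_conj (h : ∀ z, pmap T (lam p a z) = lam p a (pmap G z)) (z : Fin N → Qb) (n : ℕ) :
    (pmap T)^[n] (lam p a z) = lam p a ((pmap G)^[n] z) := by
  induction n with
  | zero => rfl
  | succ n ih => rw [Function.iterate_succ_apply', ih, h, Function.iterate_succ_apply']

theorem mem_vanT (h : ∀ z, pmap T (lam p a z) = lam p a (pmap G z)) (z : Fin N → Qb)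
    (q : Po N Qb) : q ∈ van T (lam p a z) ↔ aeval (Lp p a) q ∈ van G z := by
  rw [mem_van, mem_van]
  refine forall_congr' fun n => ?_
  rw [iter_conj h, Pool.Agent.H18.HIT.eval_aeval, pmap_Lp]

theorem comp_conj (h : ∀ z, pmap T (lam p a z) = lam p a (pmap G z)) :
    comp T (Lp p a) = comp (Lp p a) G := by
  funext i
  apply MvPolynomial.funext
  intro z
  have h5 := congrFun (pmap_comp T (Lp p a) z) i
  have h6 := congrFun (pmap_comp (Lp p a) G z) i
  rw [pmap_Lp, h z] at h5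
  rw [pmap_Lp] at h6
  exact h5.trans h6.symm

theorem aeval_conj (h : ∀ z, pmap T (lam p a z) = lam p a (pmap G z)) (q : Po N Qb) :
    aeval (Lp p a) (aeval T q) = aeval G (aeval (Lp p a) q) := by
  rw [← aeval_comp, comp_conj h, aeval_comp]

theorem prime_conj (h : ∀ z, pmap T (lam p a z) = lam p a (pmap G z)) {z : Fin N → Qb}
    (hp : (van G z).IsPrime) : (van T (lam p a z)).IsPrime := by
  refine ⟨?_, fun {x y} hxy => ?_⟩
  · intro htop
    have h1 : (1 : Po N Qb) ∈ van T (lam p a z) := by rw [htop]; trivial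
    exact one_notMem_van _ _ h1
  · rw [mem_vanT h, map_mul] at hxy
    rcases hp.mem_or_mem hxy with h1 | h1
    · exact Or.inl ((mem_vanT h z x).mpr h1)
    · exact Or.inr ((mem_vanT h z y).mpr h1)

theorem star_conj (h : ∀ z, pmap T (lam p a z) = lam p a (pmap G z)) {z : Fin N → Qb}
    (hs : ∀ q, aeval G q ∈ van G z → q ∈ van G z) :
    ∀ q, aeval T q ∈ van T (lam p a z) → q ∈ van T (lam p a z) := by
  intro q hq
  rw [mem_vanT h] at hq ⊢
  rw [aeval_conj h] at hq
  exact hs _ hq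

theorem tot_conj (h : ∀ z, pmap T (lam p a z) = lam p a (pmap G z)) {z : Fin N → Qb}
    {Δ : Po N Qb}
    (ht : ∀ w : Fin N → Qb, (∀ q ∈ van G z, eval (pmap G w) q = 0) → eval (pmap G w) Δ ≠ 0 →
      ∀ q ∈ van G z, eval w q = 0) :
    ∀ w : Fin N → Qb, (∀ q ∈ van T (lam p a z), eval (pmap T w) q = 0) →
      eval (pmap T w) (aeval (Lm p a) Δ) ≠ 0 → ∀ q ∈ van T (lam p a z), eval w q = 0 := by
  intro w hw hΔ q hq
  have h1 : pmap T w = lam p a (pmap G (pmap (Lm p a) w)) := by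
    rw [← h, lam_Lm]
  rw [mem_vanT h] at hq
  have h2 := ht (pmap (Lm p a) w) (by
    intro q' hq'
    have h3 := hw (aeval (Lm p a) q') (by rw [mem_vanT h, Lp_Lm]; exact hq')
    rwa [Pool.Agent.H18.HIT.eval_aeval, h1, Lm_lam] at h3) (by
    rwa [Pool.Agent.H18.HIT.eval_aeval, h1, Lm_lam] at hΔ) _ hq
  rwa [Pool.Agent.H18.HIT.eval_aeval, pmap_Lp, lam_Lm] at h2

end aff

section prop

variable {N : ℕ} {k : Type} [Field k]

theorem prop2_exists {u w : Fin N → k} (hu : u ≠ 0) (h : Prop2 u w) :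
    ∃ μ : k, w = fun i => μ * u i := by
  obtain ⟨s, hs⟩ : ∃ s, u s ≠ 0 := by
    by_contra hcon
    push Not at hcon
    exact hu (funext hcon)
  refine ⟨w s / u s, funext fun i => ?_⟩
  rw [div_mul_eq_mul_div, eq_div_iff hs, mul_comm, h s i]
  ring

theorem prop2_symm {u w : Fin N → k} (h : Prop2 u w) : Prop2 w u := by
  intro s t
  rw [mul_comm, mul_comm (w t)]
  exact h t s

theorem prop2_trans {u w x : Fin N → k} (hw : w ≠ 0) (h : Prop2 u w) (h' : Prop2 w x) :
    Prop2 u x := by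
  obtain ⟨μ, rfl⟩ := prop2_exists hw (prop2_symm h)
  obtain ⟨ν, rfl⟩ := prop2_exists hw h'
  intro s t
  ring

theorem prop2_iter {T : Tup N k} {D : ℕ} (hT : ∀ i, (T i).IsHomogeneous D) {u w : Fin N → k}
    (hu : u ≠ 0) (h : Prop2 u w) (j : ℕ) : Prop2 ((pmap T)^[j] u) ((pmap T)^[j] w) := by
  obtain ⟨μ, rfl⟩ := prop2_exists hu h
  rw [pmap_it_smul hT]
  intro s t
  ring

theorem star_it {T : Tup N k} {I : Ideal (Po N k)} (hs : ∀ q, aeval T q ∈ I → q ∈ I) (n : ℕ) :
    ∀ q, aeval (it T n) q ∈ I → q ∈ I := by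
  induction n with
  | zero =>
    intro q hq
    rw [it_zero] at hq
    have : aeval (fun i => (X i : Po N k)) q = q := aeval_X_left_apply q
    rwa [this] at hq
  | succ n ih =>
    intro q hq
    rw [aeval_it_succ'] at hq
    exact ih q (hs _ hq)

end prop

end Pool.Agent.H8.P2
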