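import Pool.Agent.H8.P2.AFF

/-!
# Homogeneous maps in at most three variables
-/

open MvPolynomial
open Pool.Agent.H12.ZD (pmap v O Res DenseOrbit NoInv)
open Pool.Agent.H18.HIT Pool.Agent.H8.HIT

namespace Pool.Agent.H8.P2

/-- a point whose orbit comes back to it infinitely often up to scalars is fixed up to scalars -/
theorem fixed_of_rec {N : ℕ} {p : Nat.Primes} (hp : 3 ≤ (p : ℕ)) {H : Tup N (O p)}
    {a z : Fin N → O p} {T : Tup N Qb}
    (h : ∀ z, pmap T (lam p a z) = lam p a (pmap (flQ p H) z)) {M : ℕ} (hM : 1 ≤ M)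
    (hrec : ∀ n, Prop2 (lam p a (cO z)) ((pmap T)^[M * n] (lam p a (cO z)))) :
    Prop2 (lam p a (cO z)) (pmap T (lam p a (cO z))) := by
  intro s t
  set yO : Fin N → O p := fun i => a i + ((p : ℕ) : O p) ^ 2 * z i with hyO
  set c' : Po N (O p) := C (yO s) * (C (a t) + C (((p : ℕ) : O p) ^ 2) * X t) -
    C (yO t) * (C (a s) + C (((p : ℕ) : O p) ^ 2) * X s) with hc'
  have hy : ∀ i, ((yO i : O p) : Qb) = lam p a (cO z) i := fun i => rfl
  have hev : ∀ w : Fin N → O p, ((eval w c' : O p) : Qb) =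
      lam p a (cO z) s * lam p a (cO w) t - lam p a (cO z) t * lam p a (cO w) s := by
    intro w
    have h1 : eval w c' = yO s * (a t + ((p : ℕ) : O p) ^ 2 * w t) -
        yO t * (a s + ((p : ℕ) : O p) ^ 2 * w s) := by
      rw [hc']
      simp only [map_sub, map_mul, map_add, eval_C, eval_X]
    rw [h1]
    rfl
  have hz : ∀ n, eval ((pmap (fl p H))^[M * n] z) c' = 0 := by
    intro n
    apply Subtype.ext
    have h1 := hrec n s t
    rw [iter_conj h, flQ_iterate] at h1
    rw [hev, h1]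
    exact sub_self _
  have h1 := All.inb N p H c' z M hp hM hz 1
  have h2 := hev ((pmap (fl p H))^[1] z)
  rw [h1] at h2
  have h3 : lam p a (cO ((pmap (fl p H))^[1] z)) = pmap T (lam p a (cO z)) := by
    rw [← flQ_iterate, ← iter_conj h]
    rfl
  rw [h3] at h2
  have h4 : (((0 : O p)) : Qb) = 0 := rfl
  rw [h4] at h2
  exact (sub_eq_zero.mp h2.symm)

/-- **P2**: the theorem for homogeneous maps in at most three variables -/
theorem p2core {N : ℕ} (hN1 : 1 ≤ N) (hN : N ≤ 2) (F : Tup (N + 1) Qb) {d : ℕ} (hd : 2 ≤ d)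
    (hF : ∀ i, (F i).IsHomogeneous d)
    (hinjF : Function.Injective (aeval F : Po (N + 1) Qb →ₐ[Qb] Po (N + 1) Qb))
    (hinv : NoInv F) (b : Po (N + 1) Qb) (hb : b ≠ 0) :
    ∃ x : Fin (N + 1) → Qb, (∀ n : ℕ, eval ((pmap F)^[n] x) b ≠ 0) ∧
      (∀ n : ℕ, (pmap F)^[n] x ≠ 0) ∧ DenseOrbit F x := by
  obtain ⟨θ₁, Φ₁, Δ₁, R₁, hprim₁⟩ := All.pel _ Qb F hinjF
  have hcov := All.cve (N + 1) Qb F θ₁ Φ₁ Δ₁ R₁ hinjF hprim₁
  obtain ⟨p, k, a, H, hp, hk, hcovG, hinj, hdegG, hconj, hav⟩ := setup F (b * X 0) Φ₁.natDegree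
    (natDegree_pos hprim₁) hcov (mul_ne_zero hb (X_ne_zero 0))
  have hconjT : ∀ z, pmap (it F k) (lam p a z) = lam p a (pmap (flQ p H) z) := by
    intro z
    rw [pmap_it]
    exact hconj z
  have hT : ∀ i, (it F k i).IsHomogeneous (d ^ k) := it_hom hF k
  have hD : 2 ≤ d ^ k := hd.trans (Nat.le_self_pow (by omega) d)
  have hNT : NoInv (it F k) := All.nit (N + 1) Qb F k hinjF hk hinv
  have hinvG : NoInv (flQ p H) := by
    apply noInv_conj (it F k) (flQ p H) (fun i => (a i : Qb)) (pp_ne p) _ hNT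
    intro z
    exact hconjT z
  obtain ⟨c₁, hc₁, hint⟩ := All.igc (N + 1) Qb (flQ p H) hinj
  have hB₀ : aeval (flQ p H) c₁ ≠ 0 := by
    intro h0
    exact hc₁ ((inj_iff _).mp hinj c₁ h0)
  obtain ⟨b₂, hb₂, hcan⟩ := All.can (N + 1) Qb (flQ p H) (aeval (flQ p H) c₁) hinj hinvG hB₀
  -- the minor
  have h01 : (0 : Fin (N + 1)) ≠ 1 := by
    intro h
    have := congrArg Fin.val h
    rw [Fin.val_zero, Fin.val_one'] at this
    rw [Nat.mod_eq_of_lt (by omega)] at this
    omega
  have hmin : (X 0 * it F k 1 - X 1 * it F k 0 : Po (N + 1) Qb) ≠ 0 := by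
    intro h0
    apply hNT
    refine ⟨X 1, X 0, X_ne_zero 0, ?_, ?_⟩
    · intro c hc
      have h1 := congrArg (coeff (Finsupp.single 1 1)) hc
      rw [coeff_C_mul, coeff_X, coeff_X, if_pos rfl, if_neg
        (fun h => h01 ((Finsupp.single_left_inj one_ne_zero).mp h)), mul_zero] at h1
      exact one_ne_zero h1
    · rw [aeval_X, aeval_X, mul_comm, sub_eq_zero.mp h0, mul_comm]
  obtain ⟨z, P, θ, Φ, Δ, R, hprim, hz, hzΔ, hP, hPvan, hgal, hI⟩ := core0 p hp H
    (c₁ * b₂ * aeval (Lp p a) (X 0 * it F k 1 - X 1 * it F k 0))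
    (mul_ne_zero (mul_ne_zero hc₁ hb₂) (Lp_ne p a hmin)) hinj
  rw [map_mul, map_mul] at hz
  have hne0 : ∀ n : ℕ, (pmap F)^[n] (lam p a (cO z)) ≠ 0 := by
    intro n h0
    have h1 := hav n z
    rw [h0, map_mul, eval_X] at h1
    exact right_ne_zero_of_mul h1 rfl
  refine ⟨lam p a (cO z), fun n => ?_, hne0, ?_⟩
  · have h1 := hav n z
    rw [map_mul] at h1
    exact left_ne_zero_of_mul h1
  apply dense_of_conj F p k a H hconj
  by_contra hne
  by_cases hcase : ∀ W : Po (N + 1) Qb, Irreducible W → ∃ c ∈ van (flQ p H) (cO z), ¬ W ∣ c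
  · obtain ⟨S, hS, S', hS', hS0, hS0', hrel⟩ := All.avo (N + 1) Qb _ hne hcase
    have hrel' : IsRelPrime (aeval (Lm p a) S) (aeval (Lm p a) S') := by
      intro q hq1 hq2
      have h1 : aeval (Lp p a) q ∣ S := by
        have := map_dvd (aeval (Lp p a) : Po (N + 1) Qb →ₐ[Qb] Po (N + 1) Qb) hq1
        rwa [Lp_Lm] at this
      have h2 : aeval (Lp p a) q ∣ S' := by
        have := map_dvd (aeval (Lp p a) : Po (N + 1) Qb →ₐ[Qb] Po (N + 1) Qb) hq2
        rwa [Lp_Lm] at this
      have h3 := (hrel h1 h2).map (aeval (Lm p a) : Po (N + 1) Qb →ₐ[Qb] Po (N + 1) Qb)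
      rwa [Lm_Lp] at h3
    obtain ⟨B, hB⟩ := All.hf2 (N + 1) Qb (van (it F k) (lam p a (cO z))) (aeval (Lm p a) S)
      (aeval (Lm p a) S') (by rw [mem_vanT hconjT, Lp_Lm]; exact hS)
      (by rw [mem_vanT hconjT, Lp_Lm]; exact hS') (Lm_ne p a hS0) (Lm_ne p a hS0') hrel'
    have hB' : ∀ t, Hf (van (it F k) (lam p a (cO z))) t ≤ B * (t + 1) := by
      intro t
      refine (hB t).trans (Nat.mul_le_mul_left _ ?_)
      calc (t + 1) ^ (N + 1 - 2) ≤ (t + 1) ^ 1 := Nat.pow_le_pow_right (by omega) (by omega)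
        _ = t + 1 := pow_one _
    have hprime := prime_conj hconjT (All.prm (N + 1) p H z hp)
    have hstar := star_conj hconjT (fun q hq => star hprim hI hq)
    have htot := tot_conj hconjT (z := cO z) (Δ := Δ)
      (fun w hw hΔ q hq => tot hprim hI hw hΔ hq)
    have hΔT : aeval (Lm p a) Δ ∉ van (it F k) (lam p a (cO z)) := by
      rw [mem_vanT hconjT, Lp_Lm]
      intro h0
      exact hzΔ (h0 0)
    have hhom : ∀ q ∈ van (it F k) (lam p a (cO z)), ∀ m,
        homogeneousComponent m q ∈ van (it F k) (lam p a (cO z)) :=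
      fun q hq m => cone hD hT hprime hstar hΔT htot hq m
    have hne0T : ∀ n, (pmap (it F k))^[n] (lam p a (cO z)) ≠ 0 := by
      intro n
      rw [pmap_it_iterate]
      exact hne0 _
    obtain ⟨n, m, hnm, hnmp⟩ := two_prop hhom hB' hne0T
    obtain ⟨M, hM, rfl⟩ : ∃ M, 1 ≤ M ∧ m = n + M := ⟨m - n, by omega, by omega⟩
    -- all the points of the orbit come back
    have hall : ∀ j, Prop2 ((pmap (it F k))^[j] (lam p a (cO z)))
        ((pmap (it F k))^[M + j] (lam p a (cO z))) := by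
      intro j s t
      have h1 : (X s * it (it F k) M t - X t * it (it F k) M s : Po (N + 1) Qb) ∈
          van (it F k) (lam p a (cO z)) := by
        apply star_it hstar n
        intro i
        rw [Pool.Agent.H18.HIT.eval_aeval, pmap_it, ← Function.iterate_add_apply, map_sub, map_mul, map_mul, eval_X,
          eval_X, sub_eq_zero]
        have h2 := prop2_iter hT (hne0T n) hnmp i s t
        rw [← Function.iterate_add_apply, ← Function.iterate_add_apply] at h2
        have h3 : ∀ u, eval ((pmap (it F k))^[n + i] (lam p a (cO z))) (it (it F k) M u) =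
            (pmap (it F k))^[i + (n + M)] (lam p a (cO z)) u := by
          intro u
          change pmap (it (it F k) M) _ u = _
          rw [pmap_it, ← Function.iterate_add_apply, show M + (n + i) = i + (n + M) by omega]
        rw [h3, h3, Nat.add_comm n i]
        exact h2
      have h2 := h1 j
      rw [map_sub, map_mul, map_mul, eval_X, eval_X, sub_eq_zero] at h2
      have h3 : ∀ u, eval ((pmap (it F k))^[j] (lam p a (cO z))) (it (it F k) M u) =
          (pmap (it F k))^[M + j] (lam p a (cO z)) u := by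
        intro u
        change pmap (it (it F k) M) _ u = _
        rw [pmap_it, ← Function.iterate_add_apply]
      rw [h3, h3] at h2
      exact h2
    have hrec : ∀ j, Prop2 (lam p a (cO z)) ((pmap (it F k))^[M * j] (lam p a (cO z))) := by
      intro j
      induction j with
      | zero =>
        intro s t
        rw [Nat.mul_zero]
        change lam p a (cO z) s * lam p a (cO z) t = lam p a (cO z) t * lam p a (cO z) s
        ring
      | succ j ih =>
        have h1 := hall (M * j)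
        rw [show M + M * j = M * (j + 1) by ring] at h1
        exact prop2_trans (hne0T _) ih h1
    have hfix := fixed_of_rec hp hconjT hM hrec 0 1
    apply right_ne_zero_of_mul hz
    rw [Pool.Agent.H18.HIT.eval_aeval, pmap_Lp, map_sub, map_mul, map_mul, eval_X, eval_X,
      sub_eq_zero]
    exact hfix
  · push Not at hcase
    obtain ⟨W, hW, hdvd⟩ := hcase
    have hprime := All.prm (N + 1) p H z hp
    obtain ⟨Y, hY, hYp⟩ := hprime.exists_mem_prime_of_ne_bot hne
    have hWI : W ∈ van (flQ p H) (cO z) := by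
      have h1 : Associated W Y := hW.associated_of_dvd hYp.irreducible (hdvd Y hY)
      obtain ⟨u, hu⟩ := h1.symm
      rw [← hu]
      exact Ideal.mul_mem_right _ _ hY
    have hiff : ∀ c : Po (N + 1) Qb, c ∈ van (flQ p H) (cO z) ↔ W ∣ c := by
      intro c
      refine ⟨hdvd c, ?_⟩
      rintro ⟨d, rfl⟩
      exact Ideal.mul_mem_right _ _ hWI
    obtain ⟨Z, hZ⟩ := hdvd _ (van_aeval hWI)
    have hWz : eval (cO z) W = 0 := hWI 0
    have hall : ∀ Y : Po (N + 1) Qb, Irreducible Y → Y ∣ Z → Y ∣ aeval (flQ p H) c₁ := by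
      intro Y hY hYZ
      by_contra hnd
      obtain ⟨P', hP'Y, hP'⟩ := All.lyo (N + 1) Qb (flQ p H) c₁ W Y (cO z) hinj hint
        (left_ne_zero_of_mul (left_ne_zero_of_mul hz)) hW hWz hY (hZ ▸ hYZ.mul_left W) hnd
      obtain ⟨σ, hσ1, hσ2, hσ3⟩ := hgal P' hP'
      have hjac := eval_sigma_jac hσ1 hσ3 (jac_fl_ne p H P)
      have hW' := eval_sigma_van hσ1 hσ2 hσ3 hPvan hWI
      apply All.hyp (N + 1) Qb (flQ p H) W Z (cO z)
        (fun n => by rw [flQ_iterate]; exact jac_fl_ne p H _) hW hiff hZ P' hP' hjac hW'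
      obtain ⟨d, hd⟩ := hYZ
      rw [hd, map_mul, hP'Y, zero_mul]
    obtain ⟨d, hd⟩ := hcan W Z hW hZ hall
    apply right_ne_zero_of_mul (left_ne_zero_of_mul hz)
    rw [hd, map_mul, hWz, zero_mul]

end Pool.Agent.H8.P2
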